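import Mathlib
import Pool.Agent.U367.DR.Stm

/-!
# Project DR, package GAM

An element of the absolute Galois group of `ℚ_p` which raises all the roots of unity of `p`-power
order to the power `1 + p`.
-/

set_option autoImplicit false

namespace Pool.Agent.U937.DR

open Pool.Agent.U367.DR Polynomial

/-- the cyclotomic polynomial of order `p ^ (n + 1)` is Eisenstein over `ℤ_p` -/
theorem eis (p : ℕ) [hp : Fact p.Prime] (n : ℕ) :
    ((cyclotomic (p ^ (n + 1)) ℤ_[p]).comp (X + 1)).IsEisensteinAt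
      (Ideal.span {(p : ℤ_[p])}) := by
  have h := cyclotomic_prime_pow_comp_X_add_one_isEisensteinAt p n
  have hmap : (cyclotomic (p ^ (n + 1)) ℤ_[p]).comp (X + 1) =
      ((cyclotomic (p ^ (n + 1)) ℤ).comp (X + 1)).map (Int.castRingHom ℤ_[p]) := by
    rw [Polynomial.map_comp]; simp
  have hne : (Ideal.span {(p : ℤ_[p])}) ≠ ⊤ := by
    rw [← PadicInt.maximalIdeal_eq_span_p]
    exact Ideal.IsPrime.ne_top inferInstance
  have hmon : ((cyclotomic (p ^ (n + 1)) ℤ).comp (X + 1)).Monic := by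
    rw [show (X + 1 : ℤ[X]) = X + C 1 by simp]
    refine (cyclotomic.monic _ ℤ).comp (monic_X_add_C 1) fun h => ?_
    rw [natDegree_X_add_C] at h
    exact zero_ne_one h.symm
  rw [hmap]
  refine Monic.isEisensteinAt_of_mem_of_notMem (hmon.map _) hne ?_ ?_
  · intro i hi
    rw [hmon.natDegree_map] at hi
    have h1 := h.mem hi
    rw [Ideal.submodule_span_eq, Ideal.mem_span_singleton] at h1
    rw [coeff_map, Ideal.mem_span_singleton]
    obtain ⟨c, hc⟩ := h1
    exact ⟨(c : ℤ_[p]), by rw [hc]; simp⟩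
  · intro h1
    rw [coeff_map, Ideal.span_singleton_pow] at h1
    have h2 := (PadicInt.norm_le_pow_iff_mem_span_pow _ 2).2 h1
    have h3 : (p ^ 2 : ℤ) ∣ ((cyclotomic (p ^ (n + 1)) ℤ).comp (X + 1)).coeff 0 := by
      rw [← PadicInt.norm_int_le_pow_iff_dvd]
      simpa using h2
    apply h.notMem
    rw [Ideal.submodule_span_eq, Ideal.span_singleton_pow, Ideal.mem_span_singleton]
    exact h3

/-- the cyclotomic polynomial of order `p ^ (n + 1)` is irreducible over `ℚ_p` -/
theorem irred (p : ℕ) [hp : Fact p.Prime] (n : ℕ) :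
    Irreducible (cyclotomic (p ^ (n + 1)) ℚ_[p]) := by
  have hpos : 0 < p ^ (n + 1) := pow_pos hp.out.pos _
  have hmonZ : (cyclotomic (p ^ (n + 1)) ℤ_[p]).Monic := cyclotomic.monic _ _
  have hmon : ((cyclotomic (p ^ (n + 1)) ℤ_[p]).comp (X + 1)).Monic := by
    rw [show (X + 1 : ℤ_[p][X]) = X + C 1 by simp]
    refine hmonZ.comp (monic_X_add_C 1) fun h => ?_
    rw [natDegree_X_add_C] at h
    exact zero_ne_one h.symm
  have h1 : Irreducible ((cyclotomic (p ^ (n + 1)) ℤ_[p]).comp (X + 1)) := by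
    refine (eis p n).irreducible ?_ hmon.isPrimitive ?_
    · rw [← PadicInt.maximalIdeal_eq_span_p]; infer_instance
    · rw [natDegree_comp, show (X + 1 : ℤ_[p][X]) = X + C 1 by simp, natDegree_X_add_C, mul_one,
        natDegree_cyclotomic]
      exact Nat.totient_pos.2 hpos
  have h2 : Irreducible (cyclotomic (p ^ (n + 1)) ℤ_[p]) := by
    have h4 : algEquivAevalXAddC (1 : ℤ_[p]) (cyclotomic (p ^ (n + 1)) ℤ_[p]) =
        (cyclotomic (p ^ (n + 1)) ℤ_[p]).comp (X + 1) := by
      rw [algEquivAevalXAddC_apply, map_one, comp_eq_aeval]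
    rw [← MulEquiv.irreducible_iff (algEquivAevalXAddC (1 : ℤ_[p])), h4]
    exact h1
  have h5 := (hmonZ.irreducible_iff_irreducible_map_fraction_map (K := ℚ_[p])).1 h2
  rwa [map_cyclotomic] at h5

/-- level `n` -/
theorem level (p : ℕ) [hp : Fact p.Prime] (n : ℕ) : ∃ g : Gal(PadicAlgCl p/ℚ_[p]),
    ∀ z : PadicAlgCl p, z ^ p ^ n = 1 → g z = z ^ (1 + p) := by
  rcases n with _ | n
  · refine ⟨1, fun z hz => ?_⟩
    rw [pow_zero, pow_one] at hz
    subst hz
    simp
  · have hpos : 0 < p ^ (n + 1) := pow_pos hp.out.pos _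
    have : NeZero (p ^ (n + 1)) := ⟨hpos.ne'⟩
    obtain ⟨ζ, hζ⟩ := HasEnoughRootsOfUnity.exists_primitiveRoot (PadicAlgCl p) (p ^ (n + 1))
    have hcop : Nat.Coprime (1 + p) (p ^ (n + 1)) := by
      apply Nat.Coprime.pow_right
      simp
    have hζ2 : IsPrimitiveRoot (ζ ^ (1 + p)) (p ^ (n + 1)) := hζ.pow_of_coprime _ hcop
    have : NeZero ((p ^ (n + 1) : ℕ) : ℚ_[p]) := ⟨by exact_mod_cast hpos.ne'⟩
    have : NeZero ((p ^ (n + 1) : ℕ) : PadicAlgCl p) := ⟨by exact_mod_cast hpos.ne'⟩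
    have hmin := hζ.minpoly_eq_cyclotomic_of_irreducible (irred p n)
    have hroot : aeval (ζ ^ (1 + p)) (minpoly ℚ_[p] ζ) = 0 := by
      rw [← hmin, aeval_def, eval₂_eq_eval_map, map_cyclotomic, ← IsRoot.def,
        isRoot_cyclotomic_iff]
      exact hζ2
    obtain ⟨g, hg⟩ := minpoly.exists_algEquiv_of_root'
      (Algebra.IsAlgebraic.isAlgebraic ζ) hroot
    refine ⟨g, fun z hz => ?_⟩
    obtain ⟨i, -, rfl⟩ := hζ.eq_pow_of_pow_eq_one hz
    rw [map_pow, hg, ← pow_mul, ← pow_mul, mul_comm]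

/-- the sets are closed -/
theorem closed_eq (p : ℕ) [hp : Fact p.Prime] (z w : PadicAlgCl p) :
    IsClosed {g : Gal(PadicAlgCl p/ℚ_[p]) | g z = w} := by
  by_cases h : ∃ g0 : Gal(PadicAlgCl p/ℚ_[p]), g0 z = w
  · obtain ⟨g0, hg0⟩ := h
    have h1 : {g : Gal(PadicAlgCl p/ℚ_[p]) | g z = w} = (fun g => g0⁻¹ * g) ⁻¹'
        ((IntermediateField.adjoin ℚ_[p] {z}).fixingSubgroup :
          Set (Gal(PadicAlgCl p/ℚ_[p]))) := by
      ext g
      simp only [Set.mem_ofPred_eq, Set.mem_preimage, SetLike.mem_coe]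
      rw [IntermediateField.mem_fixingSubgroup_iff]
      constructor
      · intro hg x hx
        have : IntermediateField.adjoin ℚ_[p] {z} ≤
            IntermediateField.fixedField (Subgroup.zpowers (g0⁻¹ * g)) := by
          rw [IntermediateField.adjoin_le_iff]
          rintro y rfl
          rw [SetLike.mem_coe, IntermediateField.mem_fixedField_iff]
          intro f hf
          obtain ⟨k, rfl⟩ := Subgroup.mem_zpowers_iff.1 hf
          have h2 : (g0⁻¹ * g) y = y := by
            rw [AlgEquiv.mul_apply, hg, ← hg0]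
            exact AlgEquiv.symm_apply_apply g0 y
          have h3 : (g0⁻¹ * g) ∈ MulAction.stabilizer (Gal(PadicAlgCl p/ℚ_[p])) y := h2
          exact Subgroup.zpow_mem _ h3 k
        have h4 := this hx
        rw [IntermediateField.mem_fixedField_iff] at h4
        exact h4 _ (Subgroup.mem_zpowers _)
      · intro hg
        have h5 := hg z (IntermediateField.mem_adjoin_simple_self _ z)
        rw [AlgEquiv.mul_apply] at h5
        rw [← hg0]
        calc g z = g0 (g0⁻¹ (g z)) := (AlgEquiv.apply_symm_apply g0 (g z)).symm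
          _ = g0 z := by rw [h5]
    rw [h1]
    have : FiniteDimensional ℚ_[p] (IntermediateField.adjoin ℚ_[p] {z}) :=
      IntermediateField.adjoin.finiteDimensional (Algebra.IsIntegral.isIntegral z)
    exact (IntermediateField.fixingSubgroup_isClosed _).preimage (continuous_const_mul _)
  · have : {g : Gal(PadicAlgCl p/ℚ_[p]) | g z = w} = ∅ := by
      ext g
      simp only [Set.mem_ofPred_eq, Set.mem_empty_iff_false, iff_false]
      exact fun hg => h ⟨g, hg⟩
    rw [this]
    exact isClosed_empty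

theorem t_GAM : S_GAM := by
  intro p hp
  let C : ℕ → Set (Gal(PadicAlgCl p/ℚ_[p])) := fun n =>
    {g | ∀ z : PadicAlgCl p, z ^ p ^ n = 1 → g z = z ^ (1 + p)}
  have hclosed : ∀ n, IsClosed (C n) := by
    intro n
    have : C n = ⋂ z : PadicAlgCl p, ⋂ _ : z ^ p ^ n = 1,
        {g : Gal(PadicAlgCl p/ℚ_[p]) | g z = z ^ (1 + p)} := by
      ext g
      simp [C]
    rw [this]
    exact isClosed_iInter fun z => isClosed_iInter fun _ => closed_eq p z _
  have hne := IsCompact.nonempty_iInter_of_sequence_nonempty_isCompact_isClosed C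
    (by
      intro i g hg z hz
      apply hg
      rw [pow_succ, pow_mul, hz, one_pow])
    (fun i => level p i) (hclosed 0).isCompact hclosed
  obtain ⟨g, hg⟩ := hne
  refine ⟨g, fun z k hz => ?_⟩
  exact Set.mem_iInter.1 hg k z hz

end Pool.Agent.U937.DR
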